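import Pool.Agent.LibSMQ.Steps

set_option autoImplicit false

namespace Pool.Agent.LibSMQ

open Pool.Agent.LibSMP Pool.Agent.LibPQ89

section
variable {M : Type*} [Monoid M]

/-- Nonregular step. -/
theorem step_N [Finite M] {I' : Set M} (hI' : IsId I') {j : M}
    (hmin : ∀ y, y ∉ I' → JLe y j → JLe j y)
    (hnr : ∀ x, InJ j x → ∀ z, x * z * x ≠ x)
    (h : SPQ M (relI (I' ∪ {x | InJ j x}))) : SPQ M (relI I') := by
  have hI := extend_ideal hI' hmin
  set I := I' ∪ {x | InJ j x} with hIdef
  have key : ∀ x ∈ I, ∀ y ∈ I, ∀ m, x * m * y ∈ I' := by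
    intro x hx y hy m
    rcases hx with hx | hx
    · rw [mul_assoc]; exact hI'.right hx _
    rcases hy with hy | hy
    · exact hI'.left hy _
    by_contra hcon
    have h1 : JLe (x * m * y) j := (JLe_mul_left _ _).trans hy.1
    have h2 := hmin _ hcon h1
    have h3 : JLe y ((x * m) * y) := hy.1.trans h2
    obtain ⟨z, hz⟩ := stab_L h3
    obtain ⟨k, hk, hidem⟩ := exists_idem_pow (z * (x * m))
    have h4 : y = (z * (x * m)) * y * 1 := by rw [mul_one, mul_assoc, ← hz]
    have h5 := iter_aux (z * (x * m)) y 1 h4 k
    rw [one_pow, mul_one] at h5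
    obtain ⟨k', rfl⟩ : ∃ k', k = k' + 1 := ⟨k - 1, by omega⟩
    apply hnr ((z * (x * m)) ^ (k' + 1)) _ 1
    · rw [mul_one, hidem]
    · constructor
      · refine JLe.trans ?_ hx.1
        rw [pow_succ]
        exact ⟨(z * (x * m)) ^ k' * z, m, by simp only [mul_assoc]⟩
      · refine hy.2.trans ?_
        conv_lhs => rw [h5]
        exact JLe_mul_right _ _
  apply single_step _ (relI I') h (fun x => Or.inl rfl) (fun x y z => relI.trans)
    (fun u x v => u.prod ∉ I ∧ v.prod ∉ I ∧ x.prod ∈ I)
  · intro u x x' v hsub hr hbad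
    simp only [List.prod_append]
    rcases hr with hr | ⟨hr1, hr2⟩
    · rw [hr]; exact Or.inl rfl
    · right
      by_cases hu : u.prod ∈ I
      · constructor
        · have := key _ hu _ hr1 1
          rw [mul_one] at this
          exact hI'.right this _
        · have := key _ hu _ hr2 1
          rw [mul_one] at this
          exact hI'.right this _
      · by_cases hv : v.prod ∈ I
        · constructor
          · have := key _ hr1 _ hv 1
            rw [mul_one] at this
            rw [mul_assoc]
            exact hI'.left this _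
          · have := key _ hr2 _ hv 1
            rw [mul_one] at this
            rw [mul_assoc]
            exact hI'.left this _
        · exact absurd ⟨hu, hv, hr2⟩ hbad
  · intro u x m y v hb1 hb2
    apply hb2.1
    simp only [List.prod_append]
    exact hI _ hb1.2.2 _ _

end

section Regular
variable {M : Type*} [Monoid M]
variable {I' : Set M} {e : M}

theorem step_E (hDS : DSM M) (he : e * e = e) (hI' : IsId I') (he' : e ∉ I')
    (hmin : ∀ y, y ∉ I' → JLe y e → JLe e y)
    (h : SPQ M (relI (I' ∪ {x | InJ e x}))) : SPQ M (th1 I' e) := by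
  have hI := extend_ideal hI' hmin
  apply single_step _ (th1 I' e) h (fun x => Or.inl rfl) (fun x y z => th1.trans hI' he')
    (fun u x v => JLe e u.prod ∧ JLe e v.prod ∧ ¬ JLe e x.prod)
  · intro u x x' v hsub hr hbad
    simp only [List.prod_append]
    rcases hr with hr | ⟨hr1, hr2⟩
    · rw [hr]; exact Or.inl rfl
    right
    have ht := hI _ hr2 u.prod v.prod
    have ht' := hI _ hr1 u.prod v.prod
    by_cases hF : JLe e (u.prod * x.prod * v.prod)
    · left
      have hv := JLe_of_mul_right hF
      have hu := JLe_of_mul_left (JLe_of_mul_left hF)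
      have hx := JLe_of_mul_right (JLe_of_mul_left hF)
      have hx' : JLe e x'.prod := by
        rw [JLe_prod_iff hDS he] at hx ⊢
        exact fun y hy => hx y (hsub.subset hy)
      have hF' : JLe e (u.prod * x'.prod * v.prod) :=
        DS_mul hDS he (DS_mul hDS he hu hx') hv
      constructor
      · rcases mem_I_cases hI' he' ht' with h | h
        · exact h.2
        · exact absurd hF' h.1
      · rcases mem_I_cases hI' he' ht with h | h
        · exact h.2
        · exact absurd hF h.1
    · right
      have hF' : ¬ JLe e (u.prod * x'.prod * v.prod) := by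
        intro hF'
        have hv := JLe_of_mul_right hF'
        have hu := JLe_of_mul_left (JLe_of_mul_left hF')
        apply hbad
        refine ⟨hu, hv, fun hx => hF (DS_mul hDS he (DS_mul hDS he hu hx) hv)⟩
      constructor
      · rcases mem_I_cases hI' he' ht' with h | h
        · exact absurd h.1 hF'
        · exact h.2
      · rcases mem_I_cases hI' he' ht with h | h
        · exact absurd h.1 hF
        · exact h.2
  · intro u x m y v hb1 hb2
    apply hb1.2.2
    have := hb2.1
    simp only [List.prod_append] at this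
    exact JLe_of_mul_right (JLe_of_mul_left this)

theorem step_R [Finite M] (hDS : DSM M) (he : e * e = e) (hI' : IsId I') (he' : e ∉ I')
    (hmin : ∀ y, y ∉ I' → JLe y e → JLe e y)
    (h : SPQ M (th1 I' e)) : SPQ M (th2 I' e) := by
  have hI := extend_ideal hI' hmin
  set I := I' ∪ {x | InJ e x} with hIdef
  apply single_step _ (th2 I' e) h (fun x => Or.inl rfl) (fun x y z => th2.trans hI' he')
    (fun u x v => u.prod ∉ I ∧ x.prod ∈ I)
  · intro u x x' v hsub hr hbad
    simp only [List.prod_append]
    rcases hr with hr | ⟨hr1, hr2⟩ | ⟨hr1, hr2⟩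
    · rw [hr]; exact Or.inl rfl
    · rcases both_cases hDS he hI' he' hmin (U := u.prod) (V := v.prod) hr2 hr1 with
        ⟨hu, hv, ht, ht'⟩ | ⟨ht, ht'⟩
      · right; left
        refine ⟨ht', ht, ?_⟩
        have huI : u.prod ∈ I := by
          by_contra hu'
          exact hbad ⟨hu', Or.inr hr2⟩
        have huJ : InJ e u.prod := by
          rcases mem_I_cases hI' he' huI with h | h
          · exact h.2
          · exact absurd hu h.1
        have h1 : JLe u.prod (u.prod * (x.prod * v.prod)) := by
          rw [← mul_assoc]; exact huJ.1.trans ht.2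
        have h2 : JLe u.prod (u.prod * (x'.prod * v.prod)) := by
          rw [← mul_assoc]; exact huJ.1.trans ht'.2
        obtain ⟨z, hz⟩ := stab_R h1
        obtain ⟨z', hz'⟩ := stab_R h2
        constructor
        · refine ⟨z * (x'.prod * v.prod), ?_⟩
          conv_lhs => rw [mul_assoc, hz]
          simp only [mul_assoc]
        · refine ⟨z' * (x.prod * v.prod), ?_⟩
          conv_lhs => rw [mul_assoc, hz']
          simp only [mul_assoc]
      · exact Or.inr (Or.inr ⟨ht', ht⟩)
    · exact Or.inr (Or.inr ⟨hI' _ hr1 _ _, hI' _ hr2 _ _⟩)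
  · intro u x m y v hb1 hb2
    apply hb2.1
    simp only [List.prod_append]
    exact hI _ hb1.2 _ _

theorem step_L [Finite M] (hDS : DSM M) (he : e * e = e) (hI' : IsId I') (he' : e ∉ I')
    (hmin : ∀ y, y ∉ I' → JLe y e → JLe e y)
    (h : SPQ M (th2 I' e)) : SPQ M (th3 I' e) := by
  have hI := extend_ideal hI' hmin
  set I := I' ∪ {x | InJ e x} with hIdef
  apply single_step _ (th3 I' e) h (fun x => Or.inl rfl) (fun x y z => th3.trans hI' he')
    (fun u x v => v.prod ∉ I ∧ x.prod ∈ I)
  · intro u x x' v hsub hr hbad
    simp only [List.prod_append]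
    rcases hr with hr | ⟨hr1, hr2, hR1, hR2⟩ | ⟨hr1, hr2⟩
    · rw [hr]; exact Or.inl rfl
    · rcases both_cases hDS he hI' he' hmin (U := u.prod) (V := v.prod) hr2 hr1 with
        ⟨hu, hv, ht, ht'⟩ | ⟨ht, ht'⟩
      · right; left
        refine ⟨ht', ht, R_kept hr2 hr1 ht ht' ⟨hR1, hR2⟩, ?_⟩
        have hvI : v.prod ∈ I := by
          by_contra hv'
          exact hbad ⟨hv', Or.inr hr2⟩
        have hvJ : InJ e v.prod := by
          rcases mem_I_cases hI' he' hvI with h | h
          · exact h.2
          · exact absurd hv h.1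
        obtain ⟨z, hz⟩ := stab_L (hvJ.1.trans ht.2)
        obtain ⟨z', hz'⟩ := stab_L (hvJ.1.trans ht'.2)
        constructor
        · refine ⟨u.prod * x'.prod * z, ?_⟩
          conv_lhs => rw [hz]
          simp only [mul_assoc]
        · refine ⟨u.prod * x.prod * z', ?_⟩
          conv_lhs => rw [hz']
          simp only [mul_assoc]
      · exact Or.inr (Or.inr ⟨ht', ht⟩)
    · exact Or.inr (Or.inr ⟨hI' _ hr1 _ _, hI' _ hr2 _ _⟩)
  · intro u x m y v hb1 hb2
    apply hb1.1
    simp only [List.prod_append]
    exact hI _ hb2.2 _ _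

end Regular

end Pool.Agent.LibSMQ
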