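import Pool.Agent.LibSMQ.JClass

set_option autoImplicit false

namespace Pool.Agent.LibSMQ

open Pool.Agent.LibSMP Pool.Agent.LibPQ89

section
variable {M : Type*} [Monoid M]

theorem step_G [Finite M] (hDS : DSM M) (hPO : PQ (GG M)) {I' : Set M} {e : M}
    (he : e * e = e) (hI' : IsId I') (he' : e ∉ I')
    (hmin : ∀ y, y ∉ I' → JLe y e → JLe e y)
    (h : SPQ M (th3 I' e)) : SPQ M (relI I') := by
  classical
  obtain ⟨C, hC⟩ := h
  obtain ⟨D, hD⟩ := hPO
  refine ⟨C + D + 2, ?_⟩
  intro n w
  induction hN : w.length using Nat.strong_induction_on generalizing w with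
  | _ N ih =>
  by_cases hlen : w.length ≤ qp (C + D + 2) n
  · exact ⟨w, List.Sublist.refl _, hlen, fun i => Or.inl rfl⟩
  push Not at hlen
  set p := qp C n + 1 with hp
  have hlen' : p * qp D n ≤ w.length := by
    exact (bound_mul n C D _ le_rfl).trans hlen.le
  obtain ⟨bs, rem, hbs1, hbs2, hbs3⟩ := exists_cut p (qp D n) w hlen'
  choose g hg1 hg2 hg3 using fun b => hC n b
  let t : Fin n → M := fun i => w.prod i
  have hex : ∀ i, ∃ f : {e : M // e * e = e}, InJ e (t i) →
      (∃ a, t i = a * f.1) ∧ (∃ a, f.1 = a * t i) := by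
    intro i
    by_cases hi : InJ e (t i)
    · obtain ⟨f, hf, h1, h2⟩ := exists_idem_L he hi
      exact ⟨⟨f, hf⟩, fun _ => ⟨h1, h2⟩⟩
    · exact ⟨⟨e, he⟩, fun h => absurd h hi⟩
  choose e0 he0 using hex
  let bs2 : List (Blk M n) := bs.map (fun b => (b, g b))
  have hfst : (bs2.map Prod.fst).flatten = bs.flatten := by
    simp [bs2, List.map_map, Function.comp_def]
  obtain ⟨bν, hbν1, hbν2⟩ := exists_valid hDS he hI' he' t e0 (fun i => rem.prod i)
    (fun i hi => he0 i hi) bs2 (fun _ => 1) (by
      intro i
      rw [hfst, one_mul]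
      change w.prod i = _
      rw [hbs3, List.prod_append]; rfl) (by
      intro c hc i
      obtain ⟨b, hb, rfl⟩ := List.mem_map.1 hc
      exact hg3 b i)
  have horig : orig bν = bs.flatten := by
    rw [orig, ← hfst, ← hbν1, List.map_map]; rfl
  obtain ⟨K, hK1, hK2, hK3⟩ := hD n (bν.map Prod.snd) (by
    rw [List.length_map]
    have : bν.length = bs.length := by
      have := congrArg List.length hbν1
      simpa [bs2] using this
    rw [this, hbs1])
  obtain ⟨sub, hsub1, hsub2⟩ := List.sublist_map_iff.1 hK1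
  obtain ⟨W, hW1, hW2, hW3, hW4⟩ := select hDS he hI' he' hmin _ e0 (fun i => rem.prod i) hsub1
    hbν2 (by
      intro c hc
      have : c.1 ∈ bs2 := by rw [← hbν1]; exact List.mem_map_of_mem hc
      obtain ⟨b, hb, hbc⟩ := List.mem_map.1 this
      rw [← hbc]
      refine ⟨hg1 b, ?_, hg3 b⟩
      have := hg2 b
      have := hbs2 b hb
      simp only
      omega)
  have hsubne : sub ≠ [] := by
    rintro rfl
    exact hK2 (by simpa using hsub2)
  rw [horig] at hW1 hW2 hW3 hW4
  have hlt : (W ++ rem).length < N := by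
    rw [← hN, hbs3, List.length_append, List.length_append]
    have := hW2 hsubne
    omega
  obtain ⟨w', hw'1, hw'2, hw'3⟩ := ih _ hlt _ rfl
  refine ⟨w', hw'1.trans ?_, hw'2, fun i => relI.trans (hw'3 i) ?_⟩
  · rw [hbs3]; exact hW1.append (List.Sublist.refl _)
  · by_cases hi : InJ e (t i)
    · left
      have ht : t i = bs.flatten.prod i * rem.prod i := by
        change w.prod i = _
        rw [hbs3, List.prod_append]; rfl
      have hte : t i * (e0 i).1 = t i := by
        obtain ⟨a, ha⟩ := (he0 i hi).1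
        rw [ha, mul_assoc, (e0 i).2]
      have h1 := hW3 i hi 1 (by rw [one_mul, ← ht, hte])
      rw [← hsub2, hK3, gval_one, one_mul, one_mul, ← ht, hte] at h1
      rw [List.prod_append]
      exact h1
    · have h1 := th3_congr hDS he hI' he' hmin (hW4 i) 1 (rem.prod i)
      rw [one_mul, one_mul] at h1
      have e1 : (W ++ rem).prod i = W.prod i * rem.prod i := by
        rw [List.prod_append]; rfl
      have e2 : w.prod i = bs.flatten.prod i * rem.prod i := by
        rw [hbs3, List.prod_append]; rfl
      rw [e1, e2]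
      rcases h1 with h1 | h1 | h1
      · exact Or.inl h1
      · exfalso
        apply hi
        change InJ e (w.prod i)
        rw [e2]; exact h1.2.1
      · exact Or.inr h1

end

theorem ds_ideal {M : Type*} [Monoid M] [Finite M] (hDS : DSM M) (hPO : PQ (GG M)) :
    ∀ (m : ℕ) (I' : Set M), IsId I' → (I'ᶜ).ncard ≤ m → SPQ M (relI I') := by
  classical
  intro m
  induction m with
  | zero =>
    intro I' hI' hc
    have hfull : I'ᶜ = ∅ := by
      rw [← Set.ncard_eq_zero (Set.toFinite _)]; omega
    refine ⟨0, fun n w => ⟨[], List.nil_sublist _, by simp, fun i => Or.inr ?_⟩⟩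
    rw [Set.compl_empty_iff] at hfull
    rw [hfull]; exact ⟨trivial, trivial⟩
  | succ m ih =>
    intro I' hI' hc
    by_cases hempty : I'ᶜ = ∅
    · exact ih I' hI' (by rw [hempty]; simp)
    -- choose a J-minimal element outside I'
    have hne : (I'ᶜ).Nonempty := Set.nonempty_iff_ne_empty.2 hempty
    have hwf : WellFounded (fun x y : M => JLe x y ∧ ¬ JLe y x) := by
      have : IsStrictOrder M (fun x y : M => JLe x y ∧ ¬ JLe y x) :=
        { irrefl := fun x h => h.2 h.1
          trans := fun x y z h1 h2 => ⟨h1.1.trans h2.1, fun h => h1.2 (h2.1.trans h)⟩ }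
      exact Finite.wellFounded_of_trans_of_irrefl _
    obtain ⟨j, hj, hjmin⟩ := hwf.has_min _ hne
    have hmin : ∀ y, y ∉ I' → JLe y j → JLe j y := by
      intro y hy hyj
      by_contra hcon
      exact hjmin y hy ⟨hyj, hcon⟩
    have hbig : SPQ M (relI (I' ∪ {x | InJ j x})) := by
      apply ih _ (extend_ideal hI' hmin)
      have hlt : ((I' ∪ {x | InJ j x})ᶜ).ncard < (I'ᶜ).ncard := by
        apply Set.ncard_lt_ncard _ (Set.toFinite _)
        refine ⟨?_, ?_⟩
        · intro x hx hx'
          exact hx (Or.inl hx')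
        · intro hsub
          have := hsub hj
          exact this (Or.inr ⟨JLe.refl j, JLe.refl j⟩)
      omega
    by_cases hreg : ∃ x, InJ j x ∧ ∃ z, x * z * x = x
    · obtain ⟨x, hx, z, hz⟩ := hreg
      have he : (x * z) * (x * z) = x * z := by
        rw [← mul_assoc, hz]
      have hex : JLe (x * z) x := JLe_mul_right _ _
      have hxe : JLe x (x * z) := ⟨1, x, by rw [one_mul, hz]⟩
      have hje : JLe j (x * z) := hx.2.trans hxe
      have hej : JLe (x * z) j := hex.trans hx.1
      set e := x * z with hedef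
      have he' : e ∉ I' := by
        intro h
        obtain ⟨a, b, hab⟩ := hje
        exact hj (by rw [hab]; exact hI' _ h a b)
      have hmin' : ∀ y, y ∉ I' → JLe y e → JLe e y :=
        fun y hy hye => hej.trans (hmin y hy (hye.trans hej))
      have hset : (I' ∪ {x | InJ j x}) = (I' ∪ {x | InJ e x}) := by
        ext y
        constructor
        · rintro (h | h)
          · exact Or.inl h
          · exact Or.inr ⟨h.1.trans hje, hej.trans h.2⟩
        · rintro (h | h)
          · exact Or.inl h
          · exact Or.inr ⟨h.1.trans hej, hje.trans h.2⟩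
      rw [hset] at hbig
      exact step_G hDS hPO he hI' he' hmin' (step_L hDS he hI' he' hmin'
        (step_R hDS he hI' he' hmin' (step_E hDS he hI' he' hmin' hbig)))
    · push Not at hreg
      exact step_N hI' hmin (fun x hx z => hreg x hx z) hbig

/-- Main theorem for DS monoids. -/
theorem ds_main {M : Type*} [Monoid M] [Finite M] (hDS : DSM M) :
    SPQ M (fun x y => x = y) := by
  have hPO : PQ (GG M) := PQ_all (GG M)
  obtain ⟨C, hC⟩ := ds_ideal hDS hPO _ ∅ (fun x hx => absurd hx (Set.notMem_empty x)) le_rfl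
  refine ⟨C, fun n w => ?_⟩
  obtain ⟨w', h1, h2, h3⟩ := hC n w
  refine ⟨w', h1, h2, fun i => ?_⟩
  rcases h3 i with h | h
  · exact h
  · exact absurd h.1 (Set.notMem_empty _)

end Pool.Agent.LibSMQ
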