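import Pool.Agent.LibSMQ.Words
import Pool.Agent.LibSMP.Member

set_option autoImplicit false

/-!
Nondeterministic quasi-polynomial time, and subpower membership with quasi-polynomial witnesses.
-/

namespace Pool.Agent.LibSMQ

open Pool.Agent.LibSMP Pool.Agent.LibPQ89 Pool.Agent.LibComplexity Enc

/-- Nondeterministic quasi-polynomial time, in the form with certificates: there are a language `V` in `P`
and a constant `C` such that `x ∈ L` if and only if there is a certificate `y` of length at most
`2 ^ ((log2 (|x| + 2) + 1) ^ C)` such that the word of the pair `(x, y)` is in `V`. -/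
def InNQP (L : Set (List Bool)) : Prop :=
  ∃ (V : Set (List Bool)) (C : ℕ), InP ∅ V ∧
    ∀ x, x ∈ L ↔ ∃ y : List Bool, y.length ≤ 2 ^ ((Nat.log 2 (x.length + 2) + 1) ^ C) ∧
      word (x, y) ∈ V

section
variable {S : Type} [Semigroup S] [Finite S] [Enc S]

theorem inNQP_of_short (C : ℕ)
    (hC : ∀ (n k : ℕ) (a : Fin k → Fin n → S) (b : Fin n → S),
      b ∈ Subsemigroup.closure (Set.range a) →
        ∃ w : FreeSemigroup (Fin k), w.length ≤ qp C (n + k) ∧ FreeSemigroup.lift a w = b) :
    InNQP (SMP S) := by
  classical
  rcases isEmpty_or_nonempty S with hS | ⟨⟨s0⟩⟩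
  · -- no instances
    have h0 : SMP S = ∅ := by
      ext w
      constructor
      · rintro ⟨n, k, a, b, hn, hk, _⟩
        exact (hS.false (b ⟨0, hn⟩)).elim
      · rintro ⟨⟩
    rw [h0]
    refine ⟨∅, 0, inP_iff.2 ⟨fun _ _ => false, PTf.const false, fun w => by simp⟩, fun x => by simp⟩
  · let _ : Dec S := decAny S s0
    obtain ⟨B, hB⟩ := exists_sz_bound S
    refine ⟨{z | verif s0 (read (List Bool × List Bool) z) = true}, C + (B + 3 + 1) + 1,
      inP_iff.2 ⟨fun _ z => verif s0 (read (List Bool × List Bool) z),
        (verif_ptf s0 _).comp (PTf.read PTf.id), fun w => Iff.rfl⟩, fun x => ?_⟩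
    have hread : ∀ y : List Bool, read (List Bool × List Bool) (word (x, y)) = (x, y) := by
      intro y
      have := read_word (x, y) []
      rwa [List.append_nil] at this
    simp only [Set.mem_setOf_eq, hread]
    constructor
    · rintro ⟨n, k, a, b, hn, hk, hx, hmem⟩
      obtain ⟨w, hw1, hw2⟩ := hC n k a b hmem
      set W := (w.head :: w.tail).map (fun j => List.ofFn (a j)) with hW
      refine ⟨word W, ?_, ?_⟩
      · rw [length_word, hx, length_word]
        set X := sz (List.ofFn (fun j => List.ofFn (a j)), List.ofFn b) with hX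
        have hn' := length_le_sz (List.ofFn b)
        rw [List.length_ofFn] at hn'
        have hk' := length_le_sz (List.ofFn (fun j => List.ofFn (a j)))
        rw [List.length_ofFn] at hk'
        have h1 : n + k ≤ X := by
          rw [hX, sz_pair]
          omega
        have h3 : ∀ r ∈ W, sz r ≤ X * (B + 1) + 1 := by
          intro r hr
          rw [hW, List.mem_map] at hr
          obtain ⟨j, _, rfl⟩ := hr
          refine (sz_list_le (fun y _ => hB y)).trans ?_
          rw [List.length_ofFn]
          have := Nat.mul_le_mul_right (B + 1) (show n ≤ X by omega)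
          omega
        have h4 := sz_list_le h3
        have h5 : W.length = w.length := by simp [hW, FreeSemigroup.length]
        rw [h5] at h4
        refine h4.trans ?_
        have h6 : w.length ≤ qp C X := hw1.trans (qp_mono le_rfl h1)
        have h7 : 1 ≤ qp C X := qp_pos _ _
        have h8 : X * (B + 1) + 3 ≤ (X + 2) ^ (B + 3) := by
          have h9 : B + 1 ≤ (X + 2) ^ (B + 1) :=
            ((Nat.lt_two_pow_self (n := B + 1)).le).trans (Nat.pow_le_pow_left (by omega) _)
          have h10 : X * (B + 1) ≤ X * (X + 2) ^ (B + 1) := Nat.mul_le_mul_left _ h9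
          have h11 : 1 ≤ (X + 2) ^ (B + 1) := Nat.one_le_pow _ _ (by omega)
          have h12 : (X + 2) ^ (B + 3) = (X + 2) ^ (B + 1) * ((X + 2) * (X + 2)) := by ring
          rw [h12]
          have h13 : (X + 2) ^ (B + 1) * (X + 3) ≤ (X + 2) ^ (B + 1) * ((X + 2) * (X + 2)) :=
            Nat.mul_le_mul_left _ (by nlinarith)
          nlinarith
        calc w.length * (X * (B + 1) + 1 + 1) + 1
            ≤ qp C X * (X * (B + 1) + 1 + 1) + qp C X := by
              have := Nat.mul_le_mul_right (X * (B + 1) + 1 + 1) h6
              omega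
          _ = qp C X * (X * (B + 1) + 3) := by ring
          _ ≤ qp C X * qp (B + 3 + 1) X :=
              Nat.mul_le_mul_left _ (h8.trans (poly_le_qp (B + 3) X))
          _ ≤ qp (C + (B + 3 + 1) + 1) X := qp_mul _ _ _
      · rw [hx]
        apply verif_complete s0 a b hn hk w hw2
        have := read_word W []
        rwa [List.append_nil] at this
    · rintro ⟨y, _, hy⟩
      exact verif_sound s0 hy

end

end Pool.Agent.LibSMQ
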