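import Pool.Agent.LibSMP.Words
import Pool.Agent.LibPQ89.Q4

set_option autoImplicit false

namespace Pool.Agent.LibSMQ

open Pool.Agent.LibSMP Pool.Agent.LibPQ89

/-- Every word over `M^n` has a quasi-polynomially long scattered subword with `r`-related value. -/
def SPQ (M : Type*) [Monoid M] (r : M → M → Prop) : Prop :=
  ∃ C : ℕ, ∀ (n : ℕ) (w : List (Fin n → M)),
    ∃ w' : List (Fin n → M), w'.Sublist w ∧ w'.length ≤ qp C n ∧
      ∀ i, r (w'.prod i) (w.prod i)

section
variable {M : Type*} [Monoid M]

lemma bound_mul (n C D m : ℕ) (hm : m ≤ qp D n) : (qp C n + 1) * m ≤ qp (C + D + 2) n := by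
  have h1 : 1 ≤ qp C n := qp_pos C n
  have h2 : qp 0 n = 2 := by simp [qp]
  calc (qp C n + 1) * m ≤ (qp 0 n * qp C n) * qp D n := by
        apply Nat.mul_le_mul _ hm
        rw [h2]; omega
    _ ≤ qp (0 + C + 1) n * qp D n := Nat.mul_le_mul_right _ (qp_mul 0 C n)
    _ ≤ qp ((0 + C + 1) + D + 1) n := qp_mul _ _ _
    _ = qp (C + D + 2) n := by congr 1; omega

lemma bound_aux (n C : ℕ) : (qp C n + 1) * (n + 1) ≤ qp (C + 4) n := by
  have h : (n + 2) ^ 1 ≤ qp 2 n := poly_le_qp 1 n
  rw [pow_one] at h
  exact bound_mul n C 2 (n + 1) (by omega)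

theorem single_step (r r' : M → M → Prop) (hr : SPQ M r)
    (hrefl : ∀ x, r' x x) (htrans : ∀ x y z, r' x y → r' y z → r' x z)
    (Bad : List M → List M → List M → Prop)
    (h1 : ∀ u x x' v : List M, x'.Sublist x → r x'.prod x.prod → ¬ Bad u x v →
      r' ((u ++ x' ++ v).prod) ((u ++ x ++ v).prod))
    (h2 : ∀ u x m y v : List M, Bad u x (m ++ y ++ v) → Bad (u ++ x ++ m) y v → False) :
    SPQ M r' := by
  obtain ⟨C, hC⟩ := hr
  refine ⟨C + 4, ?_⟩
  intro n w
  induction hN : w.length using Nat.strong_induction_on generalizing w with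
  | _ N ih =>
  by_cases hlen : w.length ≤ qp (C + 4) n
  · exact ⟨w, List.Sublist.refl _, hlen, fun i => hrefl _⟩
  push Not at hlen
  set p := qp C n + 1 with hp
  have hlen' : p * (n + 1) ≤ w.length := (bound_aux n C).trans hlen.le
  let u : ℕ → List (Fin n → M) := fun j => w.take (j * p)
  let x : ℕ → List (Fin n → M) := fun j => (w.drop (j * p)).take p
  let v : ℕ → List (Fin n → M) := fun j => w.drop (j * p + p)
  have hw : ∀ j, w = u j ++ x j ++ v j := by
    intro j
    have e1 : v j = (w.drop (j * p)).drop p := by simp [v, List.drop_drop]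
    rw [e1, List.append_assoc, List.take_append_drop, List.take_append_drop]
  have hx : ∀ j ≤ n, (x j).length = p := by
    intro j hj
    have : j * p + p ≤ w.length := by
      have h3 : j * p + p = p * (j + 1) := by ring
      rw [h3]
      exact (Nat.mul_le_mul_left p (by omega : j + 1 ≤ n + 1)).trans hlen'
    simp [x]
    omega
  choose x' hx'1 hx'2 hx'3 using fun j => hC n (x j)
  have hgood : ∃ j ≤ n, ∀ i : Fin n, ¬ Bad ((u j).map (fun f => f i)) ((x j).map (fun f => f i))
      ((v j).map (fun f => f i)) := by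
    by_contra hcon
    push Not at hcon
    have hcon' : ∀ j : Fin (n + 1), ∃ i : Fin n, Bad ((u j).map (fun f => f i))
        ((x j).map (fun f => f i)) ((v j).map (fun f => f i)) :=
      fun j => hcon j (by omega)
    choose g hg using hcon'
    obtain ⟨a, b, hab, hgab⟩ := Fintype.exists_ne_map_eq_of_card_lt g (by simp)
    wlog hlt : a < b generalizing a b
    · exact this b a hab.symm hgab.symm (lt_of_le_of_ne (not_lt.1 hlt) hab.symm)
    have hlt' : (a : ℕ) + 1 ≤ (b : ℕ) := hlt
    -- decompose
    obtain ⟨m, hm⟩ : ∃ m : List (Fin n → M), u b = u a ++ x a ++ m := by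
      have h4 : (a : ℕ) * p + p ≤ b * p := by
        calc (a : ℕ) * p + p = (a + 1) * p := by ring
          _ ≤ b * p := Nat.mul_le_mul_right _ hlt'
      refine ⟨(w.drop (a * p + p)).take (b * p - (a * p + p)), ?_⟩
      have e1 : u a ++ x a = w.take (a * p + p) := by
        simp only [u, x]
        rw [← List.take_add]
      rw [e1]
      simp only [u]
      conv_lhs => rw [show (b : ℕ) * p = (a * p + p) + (b * p - (a * p + p)) by omega]
      rw [List.take_add]
    have hv : v a = m ++ x b ++ v b := by
      have e1 := hw a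
      have e2 := hw b
      rw [hm] at e2
      have e3 : u a ++ x a ++ v a = u a ++ x a ++ (m ++ x b ++ v b) := by
        rw [← e1]
        conv_lhs => rw [e2]
        simp only [List.append_assoc]
      exact List.append_cancel_left e3
    have ha := hg a
    have hb := hg b
    rw [hv, List.map_append, List.map_append] at ha
    rw [← hgab, hm, List.map_append, List.map_append] at hb
    exact h2 _ _ _ _ _ ha hb
  obtain ⟨j, hj, hgj⟩ := hgood
  have hsub : (u j ++ x' j ++ v j).Sublist w := by
    conv_rhs => rw [hw j]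
    exact ((List.Sublist.refl _).append (hx'1 j)).append (List.Sublist.refl _)
  have hlt : (u j ++ x' j ++ v j).length < N := by
    rw [← hN]
    conv_rhs => rw [hw j]
    simp only [List.length_append]
    have := hx j hj
    have := hx'2 j
    omega
  obtain ⟨w', hw'1, hw'2, hw'3⟩ := ih _ hlt _ rfl
  refine ⟨w', hw'1.trans hsub, hw'2, fun i => htrans _ _ _ (hw'3 i) ?_⟩
  rw [prod_apply, prod_apply]
  conv_rhs => rw [hw j]
  simp only [List.map_append]
  apply h1 _ _ _ _ ((hx'1 j).map _) _ (hgj i)
  rw [← prod_apply, ← prod_apply]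
  exact hx'3 j i

end

end Pool.Agent.LibSMQ
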