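import Pool.Agent.LibSMQ.Main
import Pool.Agent.LibSMP.Reduce

set_option autoImplicit false

namespace Pool.Agent.LibSMQ

open Pool.Agent.LibSMP Pool.Agent.LibPQ89

section Words
variable {S : Type*} [Semigroup S] {k n : ℕ}

lemma reduce_window [Finite S] {C : ℕ}
    (hC : ∀ (w : List (Fin n → PP S)), ∃ w' : List (Fin n → PP S), w'.Sublist w ∧
      w'.length ≤ qp C n ∧ ∀ i, w'.prod i = w.prod i)
    (a : Fin k → Fin n → S) (ω : List (Fin k)) (hω : Nat.card (WithOne S) ≤ ω.length)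
    (ys : List (List (Fin k))) :
    ∃ ys' : List (List (Fin k)), ys'.Sublist ys ∧ ys'.length ≤ qp C n ∧
      ∀ i, vw a i (XX ω ys') = vw a i (XX ω ys) := by
  classical
  have hwin : ∀ i, ∃ (t : ℕ) (e : {e : S // e * e = e}),
      vw a i (ω.take t) * (e.1 : WithOne S) = vw a i (ω.take t) := by
    intro i
    obtain ⟨t, e, h⟩ := exists_window (ω.map (fun j => a j i)) (by rw [List.length_map]; exact hω)
    refine ⟨t, e, ?_⟩
    rw [vw, List.map_take]
    exact h
  choose t e he using hwin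
  let c : List (Fin k) → ∀ i, Cor (e i) := fun y i => squeeze (e i)
    (vw a i (ω.drop (t i)) * vw a i y * vw a i (ω.take (t i)))
  let κ : List (Fin k) → Fin n → PP S := fun y i => Pi.mulSingle (e i) (c y i)
  have hκ : ∀ (ys : List (List (Fin k))) (i : Fin n),
      (ys.map κ).prod i (e i) = (ys.map (fun y => c y i)).prod := by
    intro ys i
    induction ys with
    | nil => rfl
    | cons y ys ih =>
      rw [List.map_cons, List.prod_cons, List.map_cons, List.prod_cons, ← ih]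
      change (κ y i (e i)) * _ = _
      simp only [κ, Pi.mulSingle_eq_same]
  obtain ⟨w', h1, h2, h3⟩ := hC (ys.map κ)
  obtain ⟨ys', h4, rfl⟩ := List.sublist_map_iff.1 h1
  refine ⟨ys', h4, by rwa [List.length_map] at h2, fun i => ?_⟩
  rw [vw_XX a i ω (t i) (e i) (he i), vw_XX a i ω (t i) (e i) (he i)]
  have h5 := congrFun (h3 i) (e i)
  rw [hκ, hκ] at h5
  rw [show (ys'.map (fun y => squeeze (e i)
    (vw a i (ω.drop (t i)) * vw a i y * vw a i (ω.take (t i))))).prod =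
    (ys.map (fun y => squeeze (e i)
    (vw a i (ω.drop (t i)) * vw a i y * vw a i (ω.take (t i))))).prod from h5]

end Words

lemma spq_pp {S : Type*} [Semigroup S] [Finite S] (h : LocallyDS S) :
    SPQ (PP S) (fun x y => x = y) := ds_main (dsm_pp h)

theorem lds_lists {S : Type*} [Semigroup S] [Finite S] (h : LocallyDS S) :
    ∃ C : ℕ, ∀ (n k : ℕ) (a : Fin k → Fin n → S) (w : List (Fin k)), w ≠ [] →
      ∃ w' : List (Fin k), w' ≠ [] ∧ w'.Sublist w ∧ w'.length ≤ qp C (n + k) ∧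
        ∀ i, vw a i w' = vw a i w := by
  classical
  obtain ⟨C0, hC0⟩ := spq_pp h
  set R := Nat.card (WithOne S) with hR
  have hfin : Finite (WithOne S) := inferInstanceAs (Finite (Option S))
  have hRpos : 0 < R := Nat.card_pos
  refine ⟨2 * R + C0 + 4, ?_⟩
  intro n k a w
  induction hN : w.length using Nat.strong_induction_on generalizing w with
  | _ N ih =>
  intro hne
  by_cases hlen : w.length ≤ qp (2 * R + C0 + 4) (n + k)
  · exact ⟨w, hne, List.Sublist.refl _, hlen, fun i => rfl⟩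
  push Not at hlen
  set Q := qp C0 n with hQ
  have hbound : R * (k ^ R * (Q + 1) + 1) ≤ qp (2 * R + C0 + 4) (n + k) := by
    set b := n + k + 2 with hb
    have hb2 : 2 ≤ b := by omega
    have h1 : R ≤ b ^ R := (Nat.lt_pow_self (by omega)).le
    have h2 : k ^ R ≤ b ^ R := Nat.pow_le_pow_left (by omega) R
    have h3 : Q ≤ qp C0 (n + k) := qp_mono le_rfl (by omega)
    have h4 : 1 ≤ qp C0 (n + k) := qp_pos _ _
    have h5 : 1 ≤ b ^ R := Nat.one_le_pow _ _ (by omega)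
    have h6 : Q + 1 ≤ qp C0 (n + k) * b := by nlinarith
    have h7 : k ^ R * (Q + 1) + 1 ≤ b ^ R * (qp C0 (n + k) * b) * b := by
      have : k ^ R * (Q + 1) ≤ b ^ R * (qp C0 (n + k) * b) := Nat.mul_le_mul h2 h6
      have h8 : 1 ≤ b ^ R * (qp C0 (n + k) * b) := by
        have : 0 < b ^ R * (qp C0 (n + k) * b) := by positivity
        omega
      nlinarith
    have h9 : b ^ (2 * R + 2) ≤ qp (2 * R + 2 + 1) (n + k) := poly_le_qp (2 * R + 2) (n + k)
    calc R * (k ^ R * (Q + 1) + 1) ≤ b ^ R * (b ^ R * (qp C0 (n + k) * b) * b) :=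
          Nat.mul_le_mul h1 h7
      _ = b ^ (2 * R + 2) * qp C0 (n + k) := by ring
      _ ≤ qp (2 * R + 2 + 1) (n + k) * qp C0 (n + k) := Nat.mul_le_mul_right _ h9
      _ ≤ qp (2 * R + 2 + 1 + C0 + 1) (n + k) := qp_mul _ _ _
      _ = qp (2 * R + C0 + 4) (n + k) := by congr 1; omega
  obtain ⟨bs, rem, hbs1, hbs2, hbs3⟩ := exists_cut R (k ^ R * (Q + 1) + 1) w (hbound.trans hlen.le)
  obtain ⟨ω, hω1, hω2⟩ := exists_count R Q bs hbs2 (by omega)
  obtain ⟨c, hc⟩ : ∃ c, bs.count ω = c + 1 := ⟨bs.count ω - 1, by omega⟩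
  obtain ⟨w0, ys, w1, h1, h2⟩ := XX_split ω bs c hc
  have hωlen : ω.length = R := hbs2 ω hω1
  have hωne : ω ≠ [] := by
    intro h0
    rw [h0, List.length_nil] at hωlen
    omega
  have hC0' : ∀ (w : List (Fin n → PP S)), ∃ w' : List (Fin n → PP S), w'.Sublist w ∧
      w'.length ≤ qp C0 n ∧ ∀ i, w'.prod i = w.prod i := fun w => hC0 n w
  obtain ⟨ys', h3, h4, h5⟩ := reduce_window hC0' a ω (by rw [hωlen]) ys
  have hwEq : w = w0 ++ XX ω ys ++ w1 ++ rem := by rw [hbs3, h1]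
  have hsub : (w0 ++ XX ω ys' ++ w1 ++ rem).Sublist w := by
    rw [hwEq]
    exact (((List.Sublist.refl _).append (XX_sub ω h3)).append (List.Sublist.refl _)).append
      (List.Sublist.refl _)
  have hlen2 := XX_len ω hωne h3
  have hlt : (w0 ++ XX ω ys' ++ w1 ++ rem).length < N := by
    rw [← hN, hwEq]
    simp only [List.length_append]
    have : ys'.length < ys.length := by
      rw [← hQ] at h4
      omega
    omega
  have hne' : w0 ++ XX ω ys' ++ w1 ++ rem ≠ [] := by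
    intro h0
    have h6 := congrArg List.length h0
    simp only [List.length_append, List.length_nil, XX] at h6
    omega
  obtain ⟨w', g1, g2, g3, g4⟩ := ih _ hlt (w0 ++ XX ω ys' ++ w1 ++ rem) rfl hne'
  refine ⟨w', g1, g2.trans hsub, g3, fun i => ?_⟩
  rw [g4 i, hwEq]
  simp only [vw_append, h5 i]

/-- Quasi-polynomial witnesses for locally DS semigroups. -/
theorem short_words {S : Type*} [Semigroup S] [Finite S] (h : LocallyDS S) :
    ∃ C : ℕ, ∀ (n k : ℕ) (a : Fin k → Fin n → S) (b : Fin n → S),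
      b ∈ Subsemigroup.closure (Set.range a) →
        ∃ w : FreeSemigroup (Fin k), w.length ≤ qp C (n + k) ∧ FreeSemigroup.lift a w = b := by
  obtain ⟨C, hC⟩ := lds_lists h
  refine ⟨C, fun n k a b hb => ?_⟩
  obtain ⟨x, rfl⟩ := (mem_closure_iff a b).1 hb
  obtain ⟨w', h1, _, h3, h4⟩ := hC n k a (x.head :: x.tail) (by simp)
  obtain ⟨y, hy1, hy2⟩ := lift_of_list a (FreeSemigroup.lift a x) w' h1
    (fun i => by rw [h4 i, ← vw_lift])
  exact ⟨y, by rw [hy1]; exact h3, hy2⟩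

/-- `(log2 (3 N + 4) + 1) ^ C < N` for some `N`. -/
lemma exp_beats_log (C : ℕ) : ∃ N : ℕ, (Nat.log 2 (N * 2 + 1 + (N + 1) + 2) + 1) ^ C < N := by
  have h1 := tendsto_pow_const_div_const_pow_of_one_lt C (r := (2 : ℝ)) (by norm_num)
  have h2 : Filter.Tendsto (fun n : ℕ => (4 : ℝ) ^ C * ((n : ℝ) ^ C / 2 ^ n)) Filter.atTop
      (nhds 0) := by
    simpa using h1.const_mul ((4 : ℝ) ^ C)
  have h3 : ∀ᶠ n : ℕ in Filter.atTop, (4 : ℝ) ^ C * ((n : ℝ) ^ C / 2 ^ n) < 1 :=
    h2.eventually (gt_mem_nhds one_pos)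
  obtain ⟨m, h4, h5⟩ := (h3.and (Filter.eventually_ge_atTop 2)).exists
  have h7 : ((4 ^ C * m ^ C : ℕ) : ℝ) < ((2 ^ m : ℕ) : ℝ) := by
    push_cast
    rw [← mul_div_assoc, div_lt_one (by positivity)] at h4
    exact h4
  have h8 : 4 ^ C * m ^ C < 2 ^ m := by exact_mod_cast h7
  refine ⟨2 ^ m, ?_⟩
  have h9 : 4 ≤ 2 ^ m := by
    calc 4 = 2 ^ 2 := rfl
      _ ≤ 2 ^ m := Nat.pow_le_pow_right (by norm_num) h5
  have h10 : Nat.log 2 (2 ^ m * 2 + 1 + (2 ^ m + 1) + 2) < m + 3 := by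
    apply Nat.log_lt_of_lt_pow (by omega)
    rw [pow_add]
    omega
  calc (Nat.log 2 (2 ^ m * 2 + 1 + (2 ^ m + 1) + 2) + 1) ^ C ≤ (4 * m) ^ C :=
        Nat.pow_le_pow_left (by omega) C
    _ = 4 ^ C * m ^ C := mul_pow _ _ _
    _ < 2 ^ m := h8

/-- The dichotomy for the lengths of the witnesses. -/
theorem lds_iff_short {S : Type*} [Semigroup S] [Finite S] :
    LocallyDS S ↔
      ∃ C : ℕ, ∀ (n k : ℕ) (a : Fin k → Fin n → S) (b : Fin n → S),
        b ∈ Subsemigroup.closure (Set.range a) →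
          ∃ w : FreeSemigroup (Fin k),
            w.length ≤ 2 ^ ((Nat.log 2 (n + k + 2) + 1) ^ C) ∧ FreeSemigroup.lift a w = b := by
  constructor
  · intro h
    exact short_words h
  · rintro ⟨C, hC⟩
    by_contra hcon
    obtain ⟨N, hN⟩ := exp_beats_log C
    obtain ⟨a, b, hb, hw⟩ := long_words hcon N
    obtain ⟨w, hw1, hw2⟩ := hC _ _ a b hb
    rw [hw w hw2] at hw1
    exact absurd (Nat.pow_le_pow_iff_right (by norm_num : 1 < 2) |>.1 hw1) (not_le.2 hN)

end Pool.Agent.LibSMQ
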